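import Mathlib

set_option autoImplicit false

namespace Pool.Agent.Results.MP_3923f3_nt.BakerLower

/-- Admissible quadruples `(a,b,c,d)`. -/
def Admissible (a b c d : ℤ) : Prop :=
  a ≠ 0 ∧ b ≠ 0 ∧ c ≠ 0 ∧ ¬ (0 < a ∧ 0 < b ∧ 0 < c) ∧ ¬ (a < 0 ∧ b < 0 ∧ c < 0) ∧
    Even (a + b + c - d) ∧
    gcd a (gcd b c) = 1 ∧ gcd d (gcd a b) = 1 ∧ gcd d (gcd a c) = 1 ∧ gcd d (gcd b c) = 1

/-- `m(a,b,c) = max(3,|a|,|b|,|c|)`. -/
def m (a b c : ℤ) : ℤ := max 3 (max |a| (max |b| |c|))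

/-- `μ` is good. -/
def Good (μ : ℝ) : Prop :=
  ∀ a b c d : ℤ, Admissible a b c d →
    ∃ p q r : ℕ, p.Prime ∧ q.Prime ∧ r.Prime ∧ a * p + b * q + c * r = d ∧
      ((max p (max q r) : ℕ) : ℝ) ≤ 3 * ((|d| : ℤ) : ℝ) + ((m a b c : ℤ) : ℝ) ^ μ

/-- Baker's constant, the infimum of the good real numbers, taken in the extended reals. -/
noncomputable def baker : EReal := sInf ((fun μ : ℝ => (μ : EReal)) '' {μ : ℝ | Good μ})

theorem good_lower (μ : ℝ) (h : Good μ) : Real.log 13 / Real.log 3 ≤ μ := by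
  obtain ⟨p, q, r, hp, hq, hr, heq, hle⟩ := h 3 2 (-1) 0 (by
    refine ⟨by norm_num, by norm_num, by norm_num, by norm_num, by norm_num, ⟨2, by norm_num⟩, ?_, ?_, ?_, ?_⟩ <;>
    decide)
  have hr3 : r = 3 * p + 2 * q := by omega
  have hp2 := hp.two_le
  have hq2 := hq.two_le
  have hr13 : 13 ≤ r := by
    rcases Nat.lt_or_ge p 3 with h3 | h3
    · have hpe : p = 2 := by omega
      have h2 : 2 ∣ r := ⟨3 + q, by omega⟩
      have := (Nat.prime_dvd_prime_iff_eq Nat.prime_two hr).1 h2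
      omega
    · omega
  have hm : m 3 2 (-1) = 3 := by decide
  rw [hm] at hle
  have h1 : (13 : ℝ) ≤ (3 : ℝ) ^ μ := by
    have h2 : (13 : ℝ) ≤ ((max p (max q r) : ℕ) : ℝ) := by
      have : 13 ≤ max p (max q r) := hr13.trans ((le_max_right q r).trans (le_max_right p _))
      exact_mod_cast this
    have h3 : 3 * ((|(0 : ℤ)| : ℤ) : ℝ) + (((3 : ℤ)) : ℝ) ^ μ = (3 : ℝ) ^ μ := by simp
    rw [h3] at hle
    exact h2.trans hle
  have h4 := Real.log_le_log (by norm_num) h1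
  rw [Real.log_rpow (by norm_num)] at h4
  rw [div_le_iff₀ (Real.log_pos (by norm_num))]
  exact h4

theorem two_lt : (2 : ℝ) < Real.log 13 / Real.log 3 := by
  rw [lt_div_iff₀ (Real.log_pos (by norm_num)), ← Real.log_rpow (by norm_num)]
  apply Real.log_lt_log (by positivity)
  norm_num

/-- Baker's constant is at least `log 13 / log 3 > 2`; in particular it is not `1`. -/
theorem result : ((Real.log 13 / Real.log 3 : ℝ) : EReal) ≤ baker ∧ (2 : EReal) < baker ∧ baker ≠ 1 := by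
  have h1 : ((Real.log 13 / Real.log 3 : ℝ) : EReal) ≤ baker := by
    apply le_sInf
    rintro x ⟨μ, hμ, rfl⟩
    exact EReal.coe_le_coe_iff.2 (good_lower μ hμ)
  have h2 : (2 : EReal) < baker := by
    refine lt_of_lt_of_le ?_ h1
    have e : (2 : EReal) = ((2 : ℝ) : EReal) := rfl
    rw [e]
    exact EReal.coe_lt_coe_iff.2 two_lt
  refine ⟨h1, h2, ?_⟩
  intro h
  rw [h] at h2
  have e : (2 : EReal) = ((2 : ℝ) : EReal) := rfl
  have e1 : (1 : EReal) = ((1 : ℝ) : EReal) := rfl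
  rw [e, e1, EReal.coe_lt_coe_iff] at h2
  norm_num at h2

end Pool.Agent.Results.MP_3923f3_nt.BakerLower
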